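import Pool.Agent.H88.MShiftDefs
import Pool.Agent.H88.MShift

set_option autoImplicit false

open scoped ENNReal

namespace Pool.Agent.Results.MP_43e0cc_an.Jordan

open Pool.Agent.H88.MShift

theorem result (K : Type) [RCLike K] (p : ℝ≥0∞) [Fact (1 ≤ p)] (hp : p ≠ ∞) :
    ∃ S : ℤ → Matrix (Fin 2) (Fin 2) K, AdmissibleM S ∧
      ∃ σ : Lz (Euc K 2) p → Lz (Euc K 2) p, IsShiftM S σ ∧
        ∀ (k : ℕ) (B : Fin k → Lz K p → Lz K p), (∀ i, IsWShift (B i)) → ¬ LinConj K σ (prodMap B) := by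
  have hp0 : p ≠ 0 := (zero_lt_one.trans_le Fact.out).ne'
  obtain ⟨σ, hσ⟩ := exists_shift (K := K) (ENNReal.toReal_pos hp0 hp)
  exact ⟨_, adm, σ, shiftM hσ, not_conj hp hσ⟩

end Pool.Agent.Results.MP_43e0cc_an.Jordan
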